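import Pool.Agent.GaussBetti.Final

/-!
# Gaussian shape of Betti numbers: a counterexample

`X = P¹ × P¹ × P¹ × P¹` over `ℂ`, `A = O(1,1,1,1)`, `P = O_X`, so `L_d = O(d,d,d,d)`, `n = 4`,
`q = 4`.  The definitions of `H0`, `koszulD`, `K`, `k` and `r` are in
`Pool.Agent.GaussBetti.Defs`:

* `H0 m = H⁰(X, O(m,m,m,m))`, the polynomials in eight variables `x_{i,j}` that are homogeneous
  of degree `m` in each of the four pairs `x_{i,0}, x_{i,1}`;
* `koszulD` is the Koszul differential;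
* `K p q d = K_{p,q}(X; L_d)`, `k p q d` is its dimension, and `r d = h⁰(X, L_d) - 1`.
-/

set_option autoImplicit false

open Filter Topology Pool.Agent.GaussBetti

namespace Pool.Agent.Results.MP_7b2bd6_ag.GaussianFails

/-- For `X = (P¹)⁴`, `L_d = O(d,d,d,d)` and `q = 4 = dim X` there is no function `F` such that
`F(d) k_{p_d,4}(X; L_d) → exp(-a²/2)` for all real `a` and all sequences `p_d` with
`(2 p_d - r_d) / √r_d → a`. -/
theorem result : ¬ ∃ F : ℕ → ℝ, ∀ (a : ℝ) (p : ℕ → ℕ),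
    Tendsto (fun d => (2 * (p d : ℝ) - r d) / Real.sqrt (r d)) atTop (𝓝 a) →
    Tendsto (fun d => F d * (k (p d) 4 d : ℝ)) atTop (𝓝 (Real.exp (-a ^ 2 / 2))) :=
  main

end Pool.Agent.Results.MP_7b2bd6_ag.GaussianFails
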